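import Pool.Agent.Q68.ML.Mc

/-! Project ML: the Chernoff bound for the maximum (CH). -/

set_option autoImplicit false

namespace Pool.Agent.Q68.ML

open Finset Filter MeasureTheory ProbabilityTheory Pool.Agent.Q120.GM Pool.Agent.Q112.LE
open Pool.Agent.Q112.ML
open scoped Topology

/-- `e ^ y - 1 - y` -/
noncomputable def ps (y : ℝ) : ℝ := Real.exp y - 1 - y

lemma ps_nonneg (y : ℝ) : 0 ≤ ps y := by
  unfold ps
  have := Real.add_one_le_exp y
  linarith

lemma ps_mul {t y : ℝ} (h0 : 0 ≤ t) (h1 : t ≤ 1) : ps (t * y) ≤ t * ps y := by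
  unfold ps
  have h2 := convexOn_exp.2 (Set.mem_univ y) (Set.mem_univ 0) h0 (by linarith : 0 ≤ 1 - t)
    (by ring)
  simp only [smul_eq_mul, mul_zero, add_zero, Real.exp_zero, mul_one] at h2
  linarith

lemma fac_le {w p : ℝ} (h0 : 0 ≤ p) : fac w p ≤ Real.exp (p * ps w) := by
  unfold fac ps
  have h1 := Real.add_one_le_exp (p * (Real.exp w - 1))
  calc Real.exp (-(w * p)) * (1 + p * (Real.exp w - 1))
      ≤ Real.exp (-(w * p)) * Real.exp (p * (Real.exp w - 1)) :=
        mul_le_mul_of_nonneg_left (by linarith) (Real.exp_pos _).le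
    _ = _ := by
        rw [← Real.exp_add]
        congr 1
        ring

lemma fac_pos {w p : ℝ} (h0 : 0 ≤ p) (h1 : p ≤ 1) : 0 ≤ fac w p :=
  zero_le_one.trans (one_le_fac h0 h1)

lemma core (hmc : S_MC) {Ω : Type} [MeasurableSpace Ω] {μ : Measure Ω} [IsProbabilityMeasure μ]
    {A : Ω → Set ℕ} {Q : ℕ} (hQ : 1 ≤ Q) (hA : IsModel μ (level Q) A) {W : Finset ℕ} {N : ℕ}
    {Λ : ℝ} (hN : 2 ≤ N) (hW : ∀ n ∈ W, 1 ≤ n ∧ n ≤ N)
    (hΛ : qq Q * ((W.filter (fun n => Nat.Coprime n Q)).card : ℝ) ≤ Λ) (c D : ℝ) :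
    μ.real {ω | ∃ x : ℕ, D ≤ ∑ n ∈ W.filter (fun n => n ≤ x),
      (c * Real.log n) * (ind (A ω) n - level Q n)} ≤
      Real.exp (-D + Λ / Real.log N * ps (c * Real.log N)) := by
  have hL : 0 < Real.log N := Real.log_pos (by exact_mod_cast (by omega : 1 < N))
  refine (hmc Ω μ (level Q) A hA W (fun n => c * Real.log n) D).trans ?_
  rw [Real.exp_add]
  refine mul_le_mul_of_nonneg_left ?_ (Real.exp_pos _).le
  have hterm : ∀ n ∈ W, fac (c * Real.log n) (level Q n) ≤
      Real.exp (if Nat.Coprime n Q then qq Q / Real.log N * ps (c * Real.log N) else 0) := by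
    intro n hn
    refine (fac_le (p_nonneg hA n)).trans (Real.exp_le_exp.2 ?_)
    split_ifs with hc
    · rcases (hW n hn).1.eq_or_lt with h1 | h1
      · rw [← h1, Nat.cast_one, Real.log_one, mul_zero]
        have : ps 0 = 0 := by simp [ps]
        rw [this, mul_zero]
        exact mul_nonneg (div_nonneg (qq_pos hQ).le hL.le) (ps_nonneg _)
      · have hln : 0 < Real.log n := Real.log_pos (by exact_mod_cast h1)
        have hlN : Real.log n ≤ Real.log N :=
          Real.log_le_log (by exact_mod_cast (by omega : 0 < n)) (by exact_mod_cast (hW n hn).2)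
        have hp : level Q n ≤ qq Q / Real.log n := by
          unfold level
          rw [if_pos hc]
          exact min_le_right _ _
        have e : c * Real.log n = (Real.log n / Real.log N) * (c * Real.log N) := by
          field_simp
        have h2 : ps (c * Real.log n) ≤ (Real.log n / Real.log N) * ps (c * Real.log N) := by
          rw [e]
          exact ps_mul (div_nonneg hln.le hL.le) ((div_le_one hL).2 hlN)
        calc level Q n * ps (c * Real.log n)
            ≤ qq Q / Real.log n * ((Real.log n / Real.log N) * ps (c * Real.log N)) :=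
              mul_le_mul hp h2 (ps_nonneg _) (div_nonneg (qq_pos hQ).le hln.le)
          _ = qq Q / Real.log N * ps (c * Real.log N) := by field_simp
    · have : level Q n = 0 := by
        unfold level
        rw [if_neg hc]
      rw [this, zero_mul]
  have h1 : ∏ n ∈ W, (Real.exp (-(c * Real.log n * level Q n)) *
      (1 + level Q n * (Real.exp (c * Real.log n) - 1))) ≤
      ∏ n ∈ W, Real.exp (if Nat.Coprime n Q then qq Q / Real.log N * ps (c * Real.log N) else 0) :=
    Finset.prod_le_prod (fun n _ => fac_pos (p_nonneg hA n) (p_le_one hA n)) hterm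
  refine h1.trans ?_
  rw [← Real.exp_sum, ← Finset.sum_filter, Finset.sum_const, nsmul_eq_mul]
  refine Real.exp_le_exp.2 ?_
  calc ((W.filter (fun n => Nat.Coprime n Q)).card : ℝ) * (qq Q / Real.log N * ps (c * Real.log N))
      = (qq Q * ((W.filter (fun n => Nat.Coprime n Q)).card : ℝ)) *
        (ps (c * Real.log N) / Real.log N) := by ring
    _ ≤ Λ * (ps (c * Real.log N) / Real.log N) :=
        mul_le_mul_of_nonneg_right hΛ (div_nonneg (ps_nonneg _) hL.le)
    _ = _ := by ring

theorem ch (hmc : S_MC) (_hrt : S_RT) : S_CH := by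
  intro Ω _ μ _ A Q hQ hA W N Λ D hN hW hΛ hΛ0 hD
  have hL : 0 < Real.log N := Real.log_pos (by exact_mod_cast (by omega : 1 < N))
  obtain ⟨u, hu⟩ : ∃ u, u = D / Λ := ⟨_, rfl⟩
  have hu0 : 0 < u := by rw [hu]; positivity
  have hDu : D = Λ * u := by rw [hu]; field_simp
  rw [← hu]
  constructor
  · obtain ⟨s, hs⟩ : ∃ s, s = Real.log (1 + u) / Real.log N := ⟨_, rfl⟩
    have hs0 : 0 < s := by rw [hs]; exact div_pos (Real.log_pos (by linarith)) hL
    have hsL : s * Real.log N = Real.log (1 + u) := by rw [hs]; field_simp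
    have h1 := core hmc hQ hA hN hW hΛ s (s * D)
    have hev : {ω | ∃ x : ℕ, D ≤ ∑ n ∈ W.filter (fun n => n ≤ x),
        Real.log n * (ind (A ω) n - level Q n)} =
        {ω | ∃ x : ℕ, s * D ≤ ∑ n ∈ W.filter (fun n => n ≤ x),
        (s * Real.log n) * (ind (A ω) n - level Q n)} := by
      ext ω
      rw [Set.mem_ofPred_eq, Set.mem_ofPred_eq]
      refine exists_congr fun x => ?_
      have : ∑ n ∈ W.filter (fun n => n ≤ x), (s * Real.log n) * (ind (A ω) n - level Q n) =
          s * ∑ n ∈ W.filter (fun n => n ≤ x), Real.log n * (ind (A ω) n - level Q n) := by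
        rw [Finset.mul_sum]
        exact Finset.sum_congr rfl fun n _ => by ring
      rw [this, mul_le_mul_iff_right₀ hs0]
    rw [hev]
    refine h1.trans (le_of_eq ?_)
    congr 1
    rw [hsL]
    unfold ps rate
    rw [Real.exp_log (by linarith), hDu]
    have h2 : s = Real.log (1 + u) / Real.log N := hs
    rw [h2]
    field_simp
    ring
  · intro hDΛ
    have hu1 : u < 1 := by rw [hu, div_lt_one hΛ0]; exact hDΛ
    obtain ⟨s, hs⟩ : ∃ s, s = -Real.log (1 - u) / Real.log N := ⟨_, rfl⟩
    have hs0 : 0 < s := by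
      rw [hs]
      exact div_pos (neg_pos.2 (Real.log_neg (by linarith) (by linarith))) hL
    have hsL : -s * Real.log N = Real.log (1 - u) := by rw [hs]; field_simp
    have h1 := core hmc hQ hA hN hW hΛ (-s) (s * D)
    have hev : {ω | ∃ x : ℕ, D ≤ ∑ n ∈ W.filter (fun n => n ≤ x),
        Real.log n * (level Q n - ind (A ω) n)} =
        {ω | ∃ x : ℕ, s * D ≤ ∑ n ∈ W.filter (fun n => n ≤ x),
        (-s * Real.log n) * (ind (A ω) n - level Q n)} := by
      ext ω
      rw [Set.mem_ofPred_eq, Set.mem_ofPred_eq]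
      refine exists_congr fun x => ?_
      have : ∑ n ∈ W.filter (fun n => n ≤ x), (-s * Real.log n) * (ind (A ω) n - level Q n) =
          s * ∑ n ∈ W.filter (fun n => n ≤ x), Real.log n * (level Q n - ind (A ω) n) := by
        rw [Finset.mul_sum]
        exact Finset.sum_congr rfl fun n _ => by ring
      rw [this, mul_le_mul_iff_right₀ hs0]
    rw [hev]
    refine h1.trans (le_of_eq ?_)
    congr 1
    rw [hsL]
    unfold ps rate
    rw [Real.exp_log (by linarith), hDu, hs, ← sub_eq_add_neg]
    field_simp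
    ring

end Pool.Agent.Q68.ML
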