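import Pool.Agent.Q112.ML.Stm

/-! Project ML: the maximal exponential inequality (MC). -/

set_option autoImplicit false

namespace Pool.Agent.Q68.ML

open Finset Filter MeasureTheory ProbabilityTheory Pool.Agent.Q120.GM Pool.Agent.Q112.LE
open Pool.Agent.Q112.ML
open scoped Topology

/-- the factor of one element -/
noncomputable def fac (w p : ℝ) : ℝ := Real.exp (-(w * p)) * (1 + p * (Real.exp w - 1))

lemma one_le_fac {w p : ℝ} (h0 : 0 ≤ p) (h1 : p ≤ 1) : 1 ≤ fac w p := by
  unfold fac
  have h2 := convexOn_exp.2 (Set.mem_univ w) (Set.mem_univ 0) h0 (by linarith : 0 ≤ 1 - p)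
    (by ring)
  simp only [smul_eq_mul, mul_zero, add_zero, Real.exp_zero, mul_one] at h2
  have h3 : Real.exp (w * p) ≤ 1 + p * (Real.exp w - 1) := by
    rw [mul_comm w p]
    linarith
  calc (1:ℝ) = Real.exp (-(w * p)) * Real.exp (w * p) := by
        rw [← Real.exp_add]
        simp
    _ ≤ _ := mul_le_mul_of_nonneg_left h3 (Real.exp_pos _).le

lemma meas_part {Ω : Type} {m : MeasurableSpace Ω} {A : Ω → Set ℕ} {S : Finset ℕ}
    (h : ∀ n ∈ S, MeasurableSet {ω | n ∈ A ω}) (w p : ℕ → ℝ) :
    Measurable (fun ω => ∑ n ∈ S, w n * (ind (A ω) n - p n)) := by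
  refine Finset.measurable_sum _ fun n hn => ?_
  refine Measurable.const_mul (Measurable.sub_const ?_ _) _
  have h1 : (fun ω => ind (A ω) n) = Set.indicator {ω | n ∈ A ω} (fun _ => (1:ℝ)) := by
    funext ω
    unfold ind Set.indicator
    rfl
  rw [h1]
  exact measurable_const.indicator (h n hn)

/-- the event -/
def ev {Ω : Type} (A : Ω → Set ℕ) (p w : ℕ → ℝ) (W : Finset ℕ) (D : ℝ) : Set Ω :=
  {ω | ∃ x : ℕ, D ≤ ∑ n ∈ W.filter (fun n => n ≤ x), w n * (ind (A ω) n - p n)}

lemma meas_ev {Ω : Type} {m : MeasurableSpace Ω} {A : Ω → Set ℕ} {W : Finset ℕ}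
    (h : ∀ n ∈ W, MeasurableSet {ω | n ∈ A ω}) (p w : ℕ → ℝ) (D : ℝ) :
    MeasurableSet (ev A p w W D) := by
  have h1 : ev A p w W D = ⋃ x : ℕ, {ω | D ≤ ∑ n ∈ W.filter (fun n => n ≤ x),
      w n * (ind (A ω) n - p n)} := by
    ext ω
    simp [ev]
  rw [h1]
  refine MeasurableSet.iUnion fun x => ?_
  exact measurableSet_le measurable_const
    (meas_part (fun n hn => h n (Finset.mem_filter.1 hn).1) w p)

theorem mc : S_MC := by
  intro Ω _ μ _ p A hA W w D
  have hf0 : ∀ n, 1 ≤ fac (w n) (p n) := fun n => one_le_fac (p_nonneg hA n) (p_le_one hA n)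
  suffices H : ∀ D, μ.real (ev A p w W D) ≤ Real.exp (-D) * ∏ n ∈ W, fac (w n) (p n) from H D
  induction W using Finset.induction_on_min with
  | empty =>
    intro D
    rw [Finset.prod_empty, mul_one]
    by_cases hD : D ≤ 0
    · exact measureReal_le_one.trans (Real.one_le_exp (by linarith))
    · have : ev A p w ∅ D = ∅ := by
        ext ω
        simp only [ev, Finset.filter_empty, Finset.sum_empty, Set.mem_ofPred_eq,
          Set.mem_empty_iff_false, iff_false]
        rintro ⟨x, hx⟩
        exact hD hx
      rw [this, measureReal_empty]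
      exact (Real.exp_pos _).le
  | insert a s ha ih =>
    intro D
    have has : a ∉ s := fun h => lt_irrefl _ (ha a h)
    rw [Finset.prod_insert has]
    have hprod : 1 ≤ ∏ n ∈ s, fac (w n) (p n) :=
      Finset.prod_induction _ (fun x => 1 ≤ x)
        (fun a b ha hb => one_le_mul_of_one_le_of_one_le ha hb) le_rfl (fun n _ => hf0 n)
    by_cases hD : D ≤ 0
    · refine measureReal_le_one.trans ?_
      have h1 : 1 ≤ Real.exp (-D) := Real.one_le_exp (by linarith)
      have h2 : 1 ≤ fac (w a) (p a) * ∏ n ∈ s, fac (w n) (p n) :=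
        one_le_mul_of_one_le_of_one_le (hf0 a) hprod
      exact one_le_mul_of_one_le_of_one_le h1 h2
    push Not at hD
    obtain ⟨P, hP⟩ : ∃ P, P = ∏ n ∈ s, fac (w n) (p n) := ⟨_, rfl⟩
    have hsub : ev A p w (insert a s) D ⊆
        ({ω | a ∈ A ω} ∩ ev A p w s (D - w a * (1 - p a))) ∪
        ({ω | a ∈ A ω}ᶜ ∩ ev A p w s (D + w a * p a)) := by
      rintro ω ⟨x, hx⟩
      have hax : a ≤ x := by
        by_contra hc
        push Not at hc
        have h1 : (insert a s).filter (fun n => n ≤ x) = ∅ := by
          rw [Finset.filter_eq_empty_iff]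
          intro n hn
          rcases Finset.mem_insert.1 hn with rfl | h
          · omega
          · have := ha n h
            omega
        rw [h1, Finset.sum_empty] at hx
        linarith
      rw [Finset.filter_insert, if_pos hax, Finset.sum_insert (fun h =>
        has (Finset.mem_filter.1 h).1)] at hx
      by_cases hA' : a ∈ A ω
      · left
        refine ⟨hA', x, ?_⟩
        have : ind (A ω) a = 1 := by
          unfold ind
          rw [Set.indicator_of_mem hA']
        rw [this] at hx
        linarith
      · right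
        refine ⟨hA', x, ?_⟩
        have : ind (A ω) a = 0 := by
          unfold ind
          rw [Set.indicator_of_notMem hA']
        rw [this] at hx
        linarith
    have hdisj : Disjoint ({a} : Set ℕ) (s : Set ℕ) := by
      rw [Set.disjoint_singleton_left]
      exact has
    have hFa : MeasurableSet[F A ({a} : Set ℕ)] {ω | a ∈ A ω} := F_mem (Set.mem_singleton _)
    have hev : ∀ D' : ℝ, MeasurableSet[F A (s : Set ℕ)] (ev A p w s D') := fun D' =>
      @meas_ev Ω (F A (s : Set ℕ)) A s (fun n hn => F_mem hn) p w D'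
    have e1 := indep_real hA hdisj hFa (hev (D - w a * (1 - p a)))
    have e2 := indep_real hA hdisj hFa.compl (hev (D + w a * p a))
    have e3 : μ.real {ω | a ∈ A ω}ᶜ = 1 - p a := by
      rw [probReal_compl_eq_one_sub (hA.meas a), hA.prob]
    rw [hA.prob] at e1
    rw [e3] at e2
    have i1 := ih (D - w a * (1 - p a))
    have i2 := ih (D + w a * p a)
    rw [← hP] at i1 i2 ⊢
    have h0 := p_nonneg hA a
    have h1 := p_le_one hA a
    calc μ.real (ev A p w (insert a s) D)
        ≤ μ.real (({ω | a ∈ A ω} ∩ ev A p w s (D - w a * (1 - p a))) ∪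
          ({ω | a ∈ A ω}ᶜ ∩ ev A p w s (D + w a * p a))) :=
          measureReal_mono hsub (measure_ne_top _ _)
      _ ≤ p a * μ.real (ev A p w s (D - w a * (1 - p a))) +
          (1 - p a) * μ.real (ev A p w s (D + w a * p a)) := by
          rw [← e1, ← e2]
          exact measureReal_union_le _ _
      _ ≤ p a * (Real.exp (-(D - w a * (1 - p a))) * P) +
          (1 - p a) * (Real.exp (-(D + w a * p a)) * P) :=
          add_le_add (mul_le_mul_of_nonneg_left i1 h0)
            (mul_le_mul_of_nonneg_left i2 (by linarith))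
      _ = Real.exp (-D) * (fac (w a) (p a) * P) := by
          have x1 : Real.exp (-(D - w a * (1 - p a))) =
              Real.exp (-D) * Real.exp (-(w a * p a)) * Real.exp (w a) := by
            rw [← Real.exp_add, ← Real.exp_add]
            congr 1
            ring
          have x2 : Real.exp (-(D + w a * p a)) = Real.exp (-D) * Real.exp (-(w a * p a)) := by
            rw [← Real.exp_add]
            congr 1
            ring
          rw [x1, x2]
          unfold fac
          ring

end Pool.Agent.Q68.ML
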