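import Pool.Agent.Q112.ML.Stm

/-! Project ML: expected values (MN). -/

set_option autoImplicit false

namespace Pool.Agent.Q68.ML

open Finset Filter MeasureTheory ProbabilityTheory Pool.Agent.Q112.LE
open Pool.Agent.Q120.GM hiding cls
open Pool.Agent.Q112.ML
open scoped Topology

lemma mn_step (Q n : ℕ) (hQ : 1 ≤ Q) (hc : Nat.Coprime n Q) :
    |Real.log n * level Q n - qq Q| ≤ if Real.log n < qq Q then qq Q else 0 := by
  have hq := qq_pos hQ
  have hl := Real.log_natCast_nonneg n
  have e : level Q n = min 1 (qq Q / Real.log n) := by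
    unfold level
    rw [if_pos hc]
    rfl
  rw [e]
  split_ifs with h
  · have h1 : 0 ≤ Real.log n * min 1 (qq Q / Real.log n) :=
      mul_nonneg hl (le_min zero_le_one (div_nonneg hq.le hl))
    have h2 : Real.log n * min 1 (qq Q / Real.log n) ≤ Real.log n :=
      mul_le_of_le_one_right hl (min_le_left _ _)
    rw [abs_le]
    constructor <;> linarith
  · push Not at h
    have hl0 : 0 < Real.log n := hq.trans_le h
    have h1 : qq Q / Real.log n ≤ 1 := (div_le_one hl0).2 h
    rw [min_eq_right h1, mul_div_cancel₀ _ hl0.ne', sub_self, abs_zero]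

/-- the class as a progression -/
lemma cls_eq {x q a s : ℕ} (hq : 1 ≤ q) (hs1 : 1 ≤ s) (hsq : s ≤ q) (hsa : s ≡ a [MOD q]) :
    cls x q a = (range ((x + q - s) / q)).image (fun i => s + q * i) := by
  ext n
  unfold cls
  rw [mem_filter, mem_Icc, mem_image]
  constructor
  · rintro ⟨⟨h1, h2⟩, h3⟩
    have h4 : s ≡ n [MOD q] := hsa.trans h3.symm
    have h5 : s ≤ n := by
      by_contra hc
      push Not at hc
      have h6 : q ∣ s - n := (Nat.modEq_iff_dvd' hc.le).1 h4.symm
      have := Nat.le_of_dvd (by omega) h6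
      omega
    obtain ⟨i, hi⟩ := (Nat.modEq_iff_dvd' h5).1 h4
    refine ⟨i, ?_, by omega⟩
    rw [mem_range]
    have h7 : q * (i + 1) ≤ x + q - s := by
      rw [Nat.mul_add]
      omega
    rw [mul_comm] at h7
    exact (Nat.le_div_iff_mul_le (by omega : 0 < q)).2 h7
  · rintro ⟨i, hi, rfl⟩
    rw [mem_range] at hi
    have h7 : (i + 1) * q ≤ x + q - s := (Nat.le_div_iff_mul_le (by omega : 0 < q)).1 hi
    have h8 : (i + 1) * q = q * i + q := by ring
    refine ⟨⟨by omega, by omega⟩, ?_⟩
    have : s + q * i ≡ s [MOD q] := by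
      unfold Nat.ModEq
      rw [Nat.add_mul_mod_self_left]
    exact this.trans hsa

theorem mn : S_MN := by
  intro Q hQ
  have hqq := qq_pos hQ
  have hQ0 : (0:ℝ) < Q := by exact_mod_cast hQ
  refine ⟨(Q:ℝ) * Q + Q + qq Q * Real.exp (qq Q) + 1, by positivity, ?_⟩
  intro x q a hq hg
  have hk := kap_pos hQ q
  have hkQ := kap_le hQ q
  have hq0 : (0:ℝ) < q := by exact_mod_cast hq
  -- the smallest element
  obtain ⟨s, hs1, hsq, hsa⟩ : ∃ s : ℕ, 1 ≤ s ∧ s ≤ q ∧ s ≡ a [MOD q] := by
    by_cases h : a % q = 0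
    · refine ⟨q, hq, le_rfl, ?_⟩
      unfold Nat.ModEq
      rw [Nat.mod_self, h]
    · exact ⟨a % q, by omega, (Nat.mod_lt _ (by omega)).le, Nat.mod_modEq _ _⟩
  have hgs : Nat.gcd s (Nat.gcd q Q) = 1 := by
    rw [← hg]
    exact Nat.ModEq.gcd_eq (hsa.of_dvd (Nat.gcd_dvd_left q Q))
  obtain ⟨H, hH⟩ : ∃ H, H = (x + q - s) / q := ⟨_, rfl⟩
  have hcls := cls_eq (x := x) hq hs1 hsq hsa
  rw [← hH] at hcls
  have hinj : Function.Injective (fun i : ℕ => s + q * i) := by
    intro i j h
    simp only at h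
    have : q * i = q * j := by omega
    exact Nat.eq_of_mul_eq_mul_left (by omega) this
  have hHx1 : (H : ℝ) ≤ (x : ℝ) / q + 1 := by
    have h1 : (H : ℝ) ≤ ((x + q - s : ℕ) : ℝ) / q := by
      rw [hH]
      exact Nat.cast_div_le
    refine h1.trans ?_
    rw [div_le_iff₀ hq0]
    have h2 : ((x + q - s : ℕ) : ℝ) ≤ x + q := by exact_mod_cast (by omega : x + q - s ≤ x + q)
    have h3 : ((x : ℝ) / q + 1) * q = x + q := by field_simp
    rw [h3]
    exact h2
  have hHx2 : (x : ℝ) / q - 1 ≤ H := by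
    have h1 : x < s + q * H := by
      have h2 := Nat.lt_div_mul_add (a := x + q - s) (b := q) (by omega)
      rw [← hH] at h2
      have h3 : H * q = q * H := mul_comm _ _
      omega
    rw [sub_le_iff_le_add, div_le_iff₀ hq0]
    have h2 : (x : ℝ) ≤ (H + 1) * q := by
      have : x ≤ (H + 1) * q := by
        have h3 : (H + 1) * q = q * H + q := by ring
        omega
      exact_mod_cast this
    linarith
  -- the count
  have hcount : (((cls x q a).filter (fun n => Nat.Coprime n Q)).card : ℝ) =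
      (((Ico 0 (0 + H)).filter (fun j : ℕ => Int.gcd ((s : ℤ) + q * j) Q = 1)).card : ℝ) := by
    rw [hcls, Finset.filter_image, Finset.card_image_of_injective _ hinj, zero_add, range_eq_Ico]
    congr 2
  have hper := count_per hQ _ (per_int Q (s : ℤ) q) 0 H
  rw [← hcount] at hper
  have hg' : Int.gcd (s : ℤ) (Nat.gcd q Q) = 1 := by rwa [Int.gcd_natCast_natCast]
  have hc := cnt_qq hQ hg'
  unfold cnt at hc
  obtain ⟨m, hm⟩ : ∃ m : ℝ, m = (((cls x q a).filter (fun n => Nat.Coprime n Q)).card : ℝ) :=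
    ⟨_, rfl⟩
  rw [← hm] at hper
  have h1 : ((H : ℝ) - Q) * kap Q q ≤ qq Q * m := by
    have := mul_le_mul_of_nonneg_right hper.1 hqq.le
    rw [mul_assoc, hc] at this
    linarith
  have h2 : qq Q * m ≤ ((H : ℝ) + Q) * kap Q q := by
    have := mul_le_mul_of_nonneg_right hper.2 hqq.le
    rw [mul_assoc, hc] at this
    linarith
  have hmain : |qq Q * m - kap Q q * ((x : ℝ) / q)| ≤ (Q:ℝ) * Q + Q := by
    have h3 : (Q:ℝ) * kap Q q ≤ Q * Q := mul_le_mul_of_nonneg_left hkQ hQ0.le
    rw [abs_le]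
    constructor
    · have h4 : ((x : ℝ) / q - 1 - Q) * kap Q q ≤ ((H : ℝ) - Q) * kap Q q :=
        mul_le_mul_of_nonneg_right (by linarith) hk.le
      nlinarith
    · have h4 : ((H : ℝ) + Q) * kap Q q ≤ ((x : ℝ) / q + 1 + Q) * kap Q q :=
        mul_le_mul_of_nonneg_right (by linarith) hk.le
      nlinarith
  have hexp : 0 < Real.exp (qq Q) := Real.exp_pos _
  refine ⟨?_, ?_⟩
  · -- the sum
    have e1 : ∑ n ∈ cls x q a, Real.log n * level Q n =
        ∑ n ∈ (cls x q a).filter (fun n => Nat.Coprime n Q), Real.log n * level Q n := by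
      refine (sum_filter_of_ne (fun n _ hne => ?_)).symm
      by_contra hcon
      apply hne
      unfold level
      rw [if_neg hcon, mul_zero]
    have e2 : |∑ n ∈ cls x q a, Real.log n * level Q n - qq Q * m| ≤ qq Q * Real.exp (qq Q) := by
      have e3 : ∑ n ∈ cls x q a, Real.log n * level Q n - qq Q * m =
          ∑ n ∈ (cls x q a).filter (fun n => Nat.Coprime n Q), (Real.log n * level Q n - qq Q) := by
        rw [e1, sum_sub_distrib, sum_const, nsmul_eq_mul, hm, mul_comm (qq Q)]
      rw [e3]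
      refine (Finset.abs_sum_le_sum_abs _ _).trans ?_
      refine (Finset.sum_le_sum fun n hn => mn_step Q n hQ (mem_filter.1 hn).2).trans ?_
      rw [← Finset.sum_filter, Finset.sum_const, nsmul_eq_mul, mul_comm]
      refine mul_le_mul_of_nonneg_left ?_ hqq.le
      have h5 : (((cls x q a).filter (fun n => Nat.Coprime n Q)).filter
          (fun n : ℕ => Real.log n < qq Q)) ⊆ Icc 1 ⌊Real.exp (qq Q)⌋₊ := by
        intro n hn
        rw [mem_filter, mem_filter] at hn
        have hn1 : 1 ≤ n := by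
          have := hn.1.1
          unfold cls at this
          exact (mem_Icc.1 (mem_filter.1 this).1).1
        rw [mem_Icc]
        refine ⟨hn1, Nat.le_floor ?_⟩
        have h6 : (0:ℝ) < n := by exact_mod_cast hn1
        rw [← Real.exp_log h6]
        exact Real.exp_le_exp.2 hn.2.le
      have h6 := Finset.card_le_card h5
      rw [Nat.card_Icc, Nat.add_sub_cancel] at h6
      calc (((((cls x q a).filter (fun n => Nat.Coprime n Q)).filter
          (fun n : ℕ => Real.log n < qq Q)).card : ℕ) : ℝ) ≤ (⌊Real.exp (qq Q)⌋₊ : ℝ) := by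
            exact_mod_cast h6
        _ ≤ Real.exp (qq Q) := Nat.floor_le hexp.le
    have e4 : ∑ n ∈ cls x q a, Real.log n * level Q n - kap Q q * ((x : ℝ) / q) =
        (∑ n ∈ cls x q a, Real.log n * level Q n - qq Q * m) +
        (qq Q * m - kap Q q * ((x : ℝ) / q)) := by ring
    rw [e4]
    refine (abs_add_le _ _).trans ?_
    linarith
  · rw [← hm]
    have : 0 ≤ qq Q * Real.exp (qq Q) := by positivity
    linarith

end Pool.Agent.Q68.ML
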