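import Pool.Agent.Q68.ML.Mn

/-! Project ML: the constant in Montgomery's bound (MU). -/

set_option autoImplicit false

namespace Pool.Agent.Q68.ML

open Finset Filter MeasureTheory ProbabilityTheory Pool.Agent.Q112.LE
open Pool.Agent.Q120.GM hiding cls
open Pool.Agent.Q112.ML
open scoped Topology

lemma ex_small {x q : ℕ} (a : ℕ) (hq : 1 ≤ q) : ((cls x q a).card : ℝ) ≤ (x : ℝ) / q + 1 := by
  have hq0 : (0:ℝ) < q := by exact_mod_cast hq
  obtain ⟨s, hs1, hsq, hsa⟩ : ∃ s : ℕ, 1 ≤ s ∧ s ≤ q ∧ s ≡ a [MOD q] := by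
    by_cases h : a % q = 0
    · refine ⟨q, hq, le_rfl, ?_⟩
      unfold Nat.ModEq
      rw [Nat.mod_self, h]
    · exact ⟨a % q, by omega, (Nat.mod_lt _ (by omega)).le, Nat.mod_modEq _ _⟩
  rw [cls_eq hq hs1 hsq hsa]
  have h0 : (((range ((x + q - s) / q)).image (fun i => s + q * i)).card : ℝ) ≤
      (((x + q - s) / q : ℕ) : ℝ) := by
    have := Finset.card_image_le (s := range ((x + q - s) / q)) (f := fun i => s + q * i)
    rw [card_range] at this
    exact_mod_cast this
  refine h0.trans (Nat.cast_div_le.trans ?_)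
  rw [div_le_iff₀ hq0]
  have h2 : ((x + q - s : ℕ) : ℝ) ≤ x + q := by exact_mod_cast (by omega : x + q - s ≤ x + q)
  have h3 : ((x : ℝ) / q + 1) * q = x + q := by field_simp
  rw [h3]
  exact h2

lemma ind_nonneg (S : Set ℕ) (n : ℕ) : 0 ≤ ind S n := by
  unfold ind
  exact Set.indicator_nonneg (fun _ _ => zero_le_one) n

lemma ind_le_one (S : Set ℕ) (n : ℕ) : ind S n ≤ 1 := by
  unfold ind
  exact Set.indicator_le_self' (fun _ _ => zero_le_one) n

lemma psi_nonneg (S : Set ℕ) (x q a : ℕ) : 0 ≤ psi S x q a := by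
  unfold psi sm
  exact Finset.sum_nonneg fun n _ => mul_nonneg (Real.log_natCast_nonneg n) (ind_nonneg S n)

lemma psi_le (S : Set ℕ) {x q : ℕ} (a : ℕ) (hq : 1 ≤ q) :
    psi S x q a ≤ ((x : ℝ) / q + 1) * Real.log x := by
  unfold psi sm
  have h1 : ∀ n ∈ cls x q a, Real.log n * ind S n ≤ Real.log x := by
    intro n hn
    unfold cls at hn
    rw [mem_filter, mem_Icc] at hn
    have h2 : Real.log n ≤ Real.log x :=
      Real.log_le_log (by exact_mod_cast (by omega : 0 < n)) (by exact_mod_cast hn.1.2)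
    exact (mul_le_of_le_one_right (Real.log_natCast_nonneg n) (ind_le_one S n)).trans h2
  refine (Finset.sum_le_sum h1).trans ?_
  rw [sum_const, nsmul_eq_mul]
  exact mul_le_mul_of_nonneg_right (ex_small a hq) (Real.log_natCast_nonneg x)

lemma ev_exp (C : ℝ) {c : ℝ} (hc : 0 < c) : ∀ᶠ t : ℝ in atTop, C * t ≤ Real.exp (c * t) := by
  filter_upwards [eventually_ge_atTop (2 * C / c ^ 2), eventually_ge_atTop 0] with t h1 h0
  have h2 := Real.quadratic_le_exp_of_nonneg (mul_nonneg hc.le h0)
  rw [div_le_iff₀ (by positivity)] at h1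
  have h3 : C * t ≤ (c * t) ^ 2 / 2 := by nlinarith
  have h4 : 0 ≤ c * t := mul_nonneg hc.le h0
  linarith

theorem mu_small {Q : ℕ} (hrt : S_RT) (hQ : 1 ≤ Q) {ε : ℝ} (hε : 0 < ε) (hε1 : ε ≤ 1) :
    ∃ δ : ℝ, 0 < δ ∧ ∀ S : Set ℕ,
    (∀ᶠ x : ℕ in atTop, ∀ q a : ℕ, 1 ≤ q → q ≤ x → Nat.gcd a (Nat.gcd q Q) = 1 → ∀ u : ℝ, 0 < u →
        ((1 + δ) * (2 * Real.log q + Real.log (Real.log x)) * Real.log x ≤ kap Q q * ((x : ℝ) / q) * rate u →
          psi S x q a ≤ (1 + u) * (kap Q q * ((x : ℝ) / q))) ∧
        (u ≤ 1 →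
          (1 + δ) * (2 * Real.log q + Real.log (Real.log x)) * Real.log x ≤ kap Q q * ((x : ℝ) / q) * rate (-u) →
          (1 - u) * (kap Q q * ((x : ℝ) / q)) ≤ psi S x q a)) →
    ∀ᶠ x : ℕ in atTop, ∀ q a : ℕ, 1 ≤ q → q ≤ x → Nat.gcd a (Nat.gcd q Q) = 1 →
      |psi S x q a - kap Q q * ((x : ℝ) / q)| ≤
        (√2 + ε) * √((x : ℝ) / q) * Real.log x ^ (3 / 2 : ℝ) / √(Real.log (Real.log x)) := by
  obtain ⟨-, -, -, -, hr5, -, -, -, hr9, -, -⟩ := hrt
  obtain ⟨δ, hδ⟩ : ∃ δ, δ = ε / 8 := ⟨_, rfl⟩
  have hδ0 : 0 < δ := by rw [hδ]; positivity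
  have hδ1 : δ ≤ 1 / 8 := by rw [hδ]; linarith
  have hQ0 : (1:ℝ) ≤ Q := by exact_mod_cast hQ
  refine ⟨δ, hδ0, fun S hS => ?_⟩
  -- conditions on `t = loglog x`
  have hev : ∀ᶠ t : ℝ in atTop, 1 ≤ t ∧ ((1 + δ) / (2 * δ)) * t ≤ Real.exp t ∧
      (3 / ε) * t ≤ Real.exp t ∧ (Real.exp 2 * (Q:ℝ) ^ 2) * t ≤ Real.exp (δ * t) ∧
      (6 * (1 + 2 * δ) * Q) * t ≤ Real.exp t ∧
      (8 * (1 + 2 * δ) ^ 2) * t ≤ Real.exp (δ * t) := by
    have e1 := ev_exp ((1 + δ) / (2 * δ)) (c := 1) one_pos
    have e2 := ev_exp (3 / ε) (c := 1) one_pos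
    have e3 := ev_exp (6 * (1 + 2 * δ) * Q) (c := 1) one_pos
    simp only [one_mul] at e1 e2 e3
    filter_upwards [eventually_ge_atTop 1, e1, e2, ev_exp _ hδ0, e3, ev_exp _ hδ0]
      with t h1 h2 h3 h4 h5 h6
    exact ⟨h1, h2, h3, h4, h5, h6⟩
  have htend : Tendsto (fun x : ℕ => Real.log (Real.log x)) atTop atTop :=
    Real.tendsto_log_atTop.comp (Real.tendsto_log_atTop.comp tendsto_natCast_atTop_atTop)
  filter_upwards [hS, htend.eventually hev, eventually_ge_atTop 3] with x hx ht hx3
  intro q a hq hqx hg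
  obtain ⟨f1, f2, f3, f4, f5, f6⟩ := ht
  obtain ⟨l, hl⟩ : ∃ l, l = Real.log (Real.log x) := ⟨_, rfl⟩
  obtain ⟨L, hL⟩ : ∃ L, L = Real.log x := ⟨_, rfl⟩
  rw [← hl] at f1 f2 f3 f4 f5 f6
  have hx0 := hx q a hq hqx hg
  have hL0 : 0 < L := by
    rw [hL]
    exact Real.log_pos (by exact_mod_cast (by omega : 1 < x))
  have hLl : Real.exp l = L := by rw [hl, ← hL, Real.exp_log hL0]
  rw [hLl] at f2 f3 f5
  have hl0 : 0 < l := by linarith
  rw [← hl, ← hL] at hx0 ⊢
  obtain ⟨y, hy⟩ : ∃ y : ℝ, y = (x : ℝ) / q := ⟨_, rfl⟩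
  obtain ⟨κ, hκ⟩ : ∃ κ : ℝ, κ = kap Q q := ⟨_, rfl⟩
  rw [← hy, ← hκ] at hx0 ⊢
  have hκ1 : 1 ≤ κ := by rw [hκ]; exact one_le_kap hQ q
  have hκQ : κ ≤ Q := by rw [hκ]; exact kap_le hQ q
  have hq0 : (0:ℝ) < q := by exact_mod_cast hq
  have hy1 : 1 ≤ y := by
    rw [hy, le_div_iff₀ hq0, one_mul]
    exact_mod_cast hqx
  have hy0 : 0 < y := by linarith
  have hpl : psi S x q a ≤ (y + 1) * L := by
    rw [hy, hL]
    exact psi_le S a hq
  have hp0 := psi_nonneg S x q a
  have hlq : Real.log q ≤ L := by
    rw [hL]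
    exact Real.log_le_log hq0 (by exact_mod_cast hqx)
  -- the threshold
  have hthr : (1 + δ) * (2 * Real.log q + l) * L ≤ 2 * (1 + 2 * δ) * L ^ 2 := by
    have h1 : (1 + δ) * l ≤ 2 * δ * L := by
      rw [div_mul_eq_mul_div, div_le_iff₀ (by positivity)] at f2
      linarith
    have h2 : (1 + δ) * (2 * Real.log q + l) ≤ 2 * (1 + 2 * δ) * L := by
      have : (1 + δ) * (2 * Real.log q) ≤ (1 + δ) * (2 * L) :=
        mul_le_mul_of_nonneg_left (by linarith) (by linarith)
      nlinarith
    calc (1 + δ) * (2 * Real.log q + l) * L ≤ 2 * (1 + 2 * δ) * L * L :=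
          mul_le_mul_of_nonneg_right h2 hL0.le
      _ = _ := by ring
  -- the bound `D`
  obtain ⟨D, hD⟩ : ∃ D, D = (√2 + ε) * √y * L ^ (3 / 2 : ℝ) / √l := ⟨_, rfl⟩
  rw [← hD]
  have hD0 : 0 < D := by
    rw [hD]
    positivity
  have hs2 := Real.sq_sqrt (show (0:ℝ) ≤ 2 by norm_num)
  have hs21 : 1 ≤ √2 := by
    rw [Real.one_le_sqrt]
    norm_num
  have hc : 2 + 2 * ε ≤ (√2 + ε) ^ 2 := by nlinarith
  have hD2 : D ^ 2 = (√2 + ε) ^ 2 * y * L ^ 3 / l := by
    have h1 : (L ^ (3 / 2 : ℝ)) ^ 2 = L ^ 3 := by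
      rw [← Real.rpow_natCast, ← Real.rpow_mul hL0.le, ← Real.rpow_natCast]
      norm_num
    rw [hD, div_pow, mul_pow, mul_pow, Real.sq_sqrt hy0.le, Real.sq_sqrt hl0.le, h1]
  obtain ⟨c, hcd⟩ : ∃ c, c = (√2 + ε) ^ 2 := ⟨_, rfl⟩
  rw [← hcd] at hc hD2
  have hκy : 0 < κ * y := by positivity
  have hεf : 3 * l ≤ ε * L := by
    rw [div_mul_eq_mul_div, div_le_iff₀ hε] at f3
    linarith
  obtain ⟨u, hu⟩ : ∃ u, u = D / (κ * y) := ⟨_, rfl⟩
  have hu0 : 0 < u := by rw [hu]; positivity
  have hDu : κ * y * u = D := by rw [hu]; field_simp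
  rw [abs_le]
  constructor
  · -- lower side
    rcases le_total (κ * y) D with h | h
    · linarith
    · have hu1 : u ≤ 1 := by rw [hu, div_le_one hκy]; exact h
      have h2 := (hx0 u hu0).2 hu1 (by
        refine hthr.trans ?_
        have h3 := (hr5 u hu0.le hu1).1
        have h4 : κ * y * (u ^ 2 / 2) ≤ κ * y * rate (-u) := mul_le_mul_of_nonneg_left h3 hκy.le
        refine le_trans ?_ h4
        have h5 : κ * y * (u ^ 2 / 2) = D ^ 2 / (2 * (κ * y)) := by
          rw [hu]
          field_simp
        rw [h5, hD2, le_div_iff₀ (by positivity), le_div_iff₀ hl0]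
        have h6 : 6 * (1 + 2 * δ) * κ * l ≤ L := by
          refine le_trans ?_ f5
          have : 0 ≤ 6 * (1 + 2 * δ) * l := by positivity
          nlinarith
        calc 2 * (1 + 2 * δ) * L ^ 2 * (2 * (κ * y)) * l
            = (4 * (1 + 2 * δ) * κ * l) * (y * L ^ 2) := by ring
          _ ≤ (2 * L) * (y * L ^ 2) := by
              refine mul_le_mul_of_nonneg_right ?_ (by positivity)
              have : 0 ≤ (1 + 2 * δ) * κ * l := by positivity
              linarith
          _ ≤ (c * L) * (y * L ^ 2) := by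
              refine mul_le_mul_of_nonneg_right ?_ (by positivity)
              nlinarith
          _ = c * y * L ^ 3 := by ring)
      nlinarith
  · -- upper side
    rcases le_total (y * l) ((2 + ε) * L) with h | h
    · -- case 1
      have h1 : ((y + 1) * L) ^ 2 ≤ D ^ 2 := by
        rw [hD2, le_div_iff₀ hl0]
        have h2 : (y + 1) ^ 2 ≤ y * (y + 3) := by nlinarith
        have h3 : (y + 3) * l ≤ (2 + 2 * ε) * L := by nlinarith
        calc ((y + 1) * L) ^ 2 * l = (y + 1) ^ 2 * (L ^ 2 * l) := by ring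
          _ ≤ y * (y + 3) * (L ^ 2 * l) := mul_le_mul_of_nonneg_right h2 (by positivity)
          _ = (y * L ^ 2) * ((y + 3) * l) := by ring
          _ ≤ (y * L ^ 2) * ((2 + 2 * ε) * L) := mul_le_mul_of_nonneg_left h3 (by positivity)
          _ ≤ (y * L ^ 2) * (c * L) :=
              mul_le_mul_of_nonneg_left (mul_le_mul_of_nonneg_right hc hL0.le) (by positivity)
          _ = c * y * L ^ 3 := by ring
      have h2 := abs_le_of_sq_le_sq h1 hD0.le
      have h3 := (le_abs_self _).trans h2
      linarith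
    · -- case 2
      have key : 2 * (1 + 2 * δ) * L ^ 2 ≤ κ * y * rate u := by
        rcases le_total y (Real.exp ((1 + δ) * l)) with h2 | h2
        · -- case 2a
          have hu2 : Real.exp (2 + 2 * (1 - δ) * l) ≤ u ^ 2 := by
            have e1 : u ^ 2 = c * L ^ 3 / (l * κ ^ 2 * y) := by
              rw [hu, div_pow, hD2]
              field_simp
            rw [e1, le_div_iff₀ (by positivity)]
            have e2 : L ^ 3 = Real.exp (3 * l) := by
              rw [← hLl, ← Real.exp_nat_mul]
              norm_num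
            rw [e2]
            calc Real.exp (2 + 2 * (1 - δ) * l) * (l * κ ^ 2 * y)
                ≤ Real.exp (2 + 2 * (1 - δ) * l) * (l * (Q:ℝ) ^ 2 * Real.exp ((1 + δ) * l)) := by
                  refine mul_le_mul_of_nonneg_left ?_ (Real.exp_pos _).le
                  refine mul_le_mul ?_ h2 hy0.le (by positivity)
                  exact mul_le_mul_of_nonneg_left (pow_le_pow_left₀ (by linarith) hκQ 2) hl0.le
              _ = (Real.exp 2 * (Q:ℝ) ^ 2 * l) * Real.exp ((3 - δ) * l) := by
                  have : Real.exp (2 + 2 * (1 - δ) * l) * Real.exp ((1 + δ) * l) =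
                      Real.exp 2 * Real.exp ((3 - δ) * l) := by
                    rw [← Real.exp_add, ← Real.exp_add]
                    congr 1
                    ring
                  linear_combination (l * (Q:ℝ) ^ 2) * this
              _ ≤ Real.exp (δ * l) * Real.exp ((3 - δ) * l) :=
                  mul_le_mul_of_nonneg_right f4 (Real.exp_pos _).le
              _ = Real.exp (3 * l) := by
                  rw [← Real.exp_add]
                  congr 1
                  ring
              _ ≤ c * Real.exp (3 * l) := by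
                  have := Real.exp_pos (3 * l)
                  nlinarith
          have hue : Real.exp (1 + (1 - δ) * l) ≤ u := by
            have e1 : Real.exp (1 + (1 - δ) * l) ^ 2 ≤ u ^ 2 := by
              rw [← Real.exp_nat_mul]
              refine le_trans (le_of_eq ?_) hu2
              congr 1
              push_cast
              ring
            have := abs_le_of_sq_le_sq e1 hu0.le
            exact (le_abs_self _).trans this
          have hlog : 1 + (1 - δ) * l ≤ Real.log (1 + u) := by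
            rw [Real.le_log_iff_exp_le (by linarith)]
            linarith
          have hlog0 : 0 ≤ Real.log (1 + u) := Real.log_nonneg (by linarith)
          have hrate : u * (Real.log (1 + u) - 1) ≤ rate u := by
            unfold rate
            nlinarith
          have hDl : (2 + ε) * L ^ 2 ≤ D * l := by
            have e1 : ((2 + ε) * L ^ 2) ^ 2 ≤ (D * l) ^ 2 := by
              have e2 : (D * l) ^ 2 = c * (y * l) * L ^ 3 := by
                rw [mul_pow, hD2]
                field_simp
              rw [e2]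
              calc ((2 + ε) * L ^ 2) ^ 2 = (2 + ε) * ((2 + ε) * L) * L ^ 3 := by ring
                _ ≤ c * (y * l) * L ^ 3 := by
                    refine mul_le_mul_of_nonneg_right ?_ (by positivity)
                    exact mul_le_mul (by linarith) h (by positivity) (by linarith)
            have := abs_le_of_sq_le_sq e1 (by positivity)
            exact (le_abs_self _).trans this
          calc 2 * (1 + 2 * δ) * L ^ 2 ≤ (1 - δ) * ((2 + ε) * L ^ 2) := by
                have h5 : 2 * (1 + 2 * δ) ≤ (1 - δ) * (2 + ε) := by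
                  rw [hδ]
                  nlinarith
                have h6 : 0 ≤ L ^ 2 := by positivity
                nlinarith
            _ ≤ (1 - δ) * (D * l) := mul_le_mul_of_nonneg_left hDl (by linarith)
            _ = D * ((1 - δ) * l) := by ring
            _ ≤ D * (Real.log (1 + u) - 1) :=
                mul_le_mul_of_nonneg_left (by linarith) hD0.le
            _ = κ * y * (u * (Real.log (1 + u) - 1)) := by rw [← hDu]; ring
            _ ≤ κ * y * rate u := mul_le_mul_of_nonneg_left hrate hκy.le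
        · -- case 2b
          have h3 := hr9 u hu0.le
          have h4 : κ * y * (u ^ 2 / (2 + u)) ≤ κ * y * rate u :=
            mul_le_mul_of_nonneg_left h3 hκy.le
          refine le_trans ?_ h4
          have h5 : κ * y * (u ^ 2 / (2 + u)) = D ^ 2 / (2 * (κ * y) + D) := by
            have h6 : D = κ * y * u := hDu.symm
            rw [h6]
            have : 2 + u ≠ 0 := by linarith
            have : 2 * (κ * y) + κ * y * u ≠ 0 := by positivity
            field_simp
          rw [h5, le_div_iff₀ (by positivity)]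
          rcases le_total D (2 * (κ * y)) with h6 | h6
          · have h7 : 6 * (1 + 2 * δ) * κ * l ≤ L := by
              refine le_trans ?_ f5
              have : 0 ≤ 6 * (1 + 2 * δ) * l := by positivity
              nlinarith
            rw [hD2, le_div_iff₀ hl0]
            calc 2 * (1 + 2 * δ) * L ^ 2 * (2 * (κ * y) + D) * l
                ≤ 2 * (1 + 2 * δ) * L ^ 2 * (4 * (κ * y)) * l := by
                  refine mul_le_mul_of_nonneg_right (mul_le_mul_of_nonneg_left ?_ (by positivity))
                    hl0.le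
                  linarith
              _ = (8 * (1 + 2 * δ) * κ * l) * (y * L ^ 2) := by ring
              _ ≤ (2 * L) * (y * L ^ 2) := by
                  refine mul_le_mul_of_nonneg_right ?_ (by positivity)
                  have : 0 ≤ (1 + 2 * δ) * κ * l := by positivity
                  linarith
              _ ≤ (c * L) * (y * L ^ 2) := by
                  refine mul_le_mul_of_nonneg_right ?_ (by positivity)
                  nlinarith
              _ = c * y * L ^ 3 := by ring
          · have h7 : 4 * (1 + 2 * δ) * L ^ 2 ≤ D := by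
              have e1 : (4 * (1 + 2 * δ) * L ^ 2) ^ 2 ≤ D ^ 2 := by
                rw [hD2, le_div_iff₀ hl0]
                have e2 : L = Real.exp l := hLl.symm
                have e3 : L * Real.exp (δ * l) = Real.exp ((1 + δ) * l) := by
                  rw [e2, ← Real.exp_add]
                  congr 1
                  ring
                calc (4 * (1 + 2 * δ) * L ^ 2) ^ 2 * l =
                      2 * (8 * (1 + 2 * δ) ^ 2 * l) * L ^ 4 := by ring
                  _ ≤ 2 * Real.exp (δ * l) * L ^ 4 := by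
                      refine mul_le_mul_of_nonneg_right ?_ (by positivity)
                      linarith
                  _ = 2 * (L * Real.exp (δ * l)) * L ^ 3 := by ring
                  _ = 2 * Real.exp ((1 + δ) * l) * L ^ 3 := by rw [e3]
                  _ ≤ c * y * L ^ 3 := by
                      refine mul_le_mul_of_nonneg_right ?_ (by positivity)
                      exact mul_le_mul (by linarith) h2 (Real.exp_pos _).le (by linarith)
              have := abs_le_of_sq_le_sq e1 hD0.le
              exact (le_abs_self _).trans this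
            calc 2 * (1 + 2 * δ) * L ^ 2 * (2 * (κ * y) + D)
                ≤ 2 * (1 + 2 * δ) * L ^ 2 * (2 * D) :=
                  mul_le_mul_of_nonneg_left (by linarith) (by positivity)
              _ = (4 * (1 + 2 * δ) * L ^ 2) * D := by ring
              _ ≤ D * D := mul_le_mul_of_nonneg_right h7 hD0.le
              _ = D ^ 2 := by ring
      have h2 := (hx0 u hu0).1 (hthr.trans key)
      nlinarith

theorem mu (hrt : S_RT) : S_MU := by
  intro Q hQ ε hε
  obtain ⟨δ, hδ, h⟩ := mu_small hrt hQ (ε := min ε 1) (by positivity) (min_le_right _ _)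
  refine ⟨δ, hδ, fun S hS => ?_⟩
  filter_upwards [h S hS] with x hx
  intro q a hq hqx hg
  refine (hx q a hq hqx hg).trans ?_
  refine div_le_div_of_nonneg_right ?_ (Real.sqrt_nonneg _)
  refine mul_le_mul_of_nonneg_right ?_ (Real.rpow_nonneg (Real.log_natCast_nonneg x) _)
  exact mul_le_mul_of_nonneg_right (by linarith [min_le_left ε 1]) (Real.sqrt_nonneg _)

end Pool.Agent.Q68.ML
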