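import Pool.Agent.Q112.ML.Stm

/-! Project ML: the rate function (RT). -/

set_option autoImplicit false

namespace Pool.Agent.Q68.ML

open Finset Filter MeasureTheory ProbabilityTheory Pool.Agent.Q120.GM Pool.Agent.Q112.LE
open Pool.Agent.Q112.ML
open scoped Topology

lemma rate_cont : Continuous rate := by
  unfold rate
  have h1 : Continuous (fun u : ℝ => (1 + u) * Real.log (1 + u)) :=
    Real.continuous_mul_log.comp (continuous_const.add continuous_id)
  exact h1.sub continuous_id

lemma rate_zero : rate 0 = 0 := by simp [rate]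

lemma rate_neg_one : rate (-1) = 1 := by simp [rate]

lemma rate_deriv {u : ℝ} (hu : -1 < u) : HasDerivAt rate (Real.log (1 + u)) u := by
  unfold rate
  have h0 : (1 + u) ≠ 0 := by linarith
  have h1 : HasDerivAt (fun u : ℝ => 1 + u) 1 u := (hasDerivAt_id u).const_add 1
  have h2 := ((h1.mul (h1.log h0)).sub (hasDerivAt_id u))
  convert! h2 using 1
  field_simp
  ring

/-- the lower side -/
noncomputable def hh (v : ℝ) : ℝ := rate (-v)

lemma hh_cont : Continuous hh := rate_cont.comp continuous_neg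

lemma hh_deriv {v : ℝ} (hv : v < 1) : HasDerivAt hh (-Real.log (1 - v)) v := by
  have h1 := (rate_deriv (u := -v) (by linarith)).comp v (hasDerivAt_neg v)
  have e : (1:ℝ) + -v = 1 - v := by ring
  rw [e, mul_neg_one] at h1
  exact h1

lemma hh_zero : hh 0 = 0 := by unfold hh; rw [neg_zero, rate_zero]

lemma log_lower {u : ℝ} (hu : 0 ≤ u) : 2 * u ≤ (2 + u) * Real.log (1 + u) := by
  have h1 := Real.le_log_one_add_of_nonneg hu
  rw [div_le_iff₀ (by linarith)] at h1
  linarith

lemma rt9 {u : ℝ} (hu : 0 ≤ u) : u ^ 2 / (2 + u) ≤ rate u := by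
  rw [div_le_iff₀ (by linarith)]
  unfold rate
  nlinarith [log_lower hu, mul_nonneg hu hu]

lemma rt10 {u : ℝ} (hu : 0 ≤ u) : u * Real.log (1 + u) ≤ 2 * rate u := by
  unfold rate
  nlinarith [log_lower hu]

lemma rt1 {u : ℝ} (hu : 0 ≤ u) : rate u ≤ u ^ 2 / 2 := by
  have h1 : MonotoneOn (fun u : ℝ => u ^ 2 / 2 - rate u) (Set.Ici 0) := by
    apply monotoneOn_of_deriv_nonneg (convex_Ici 0)
    · exact (((continuous_pow 2).div_const 2).sub rate_cont).continuousOn
    · intro x hx
      rw [interior_Ici] at hx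
      have hx' : 0 < x := hx
      exact (((hasDerivAt_pow 2 x).div_const 2).sub
        (rate_deriv (by linarith))).differentiableAt.differentiableWithinAt
    · intro x hx
      rw [interior_Ici] at hx
      have hx' : 0 < x := hx
      have h2 := (((hasDerivAt_pow 2 x).div_const 2).sub (rate_deriv (u := x) (by linarith)))
      have h3 : deriv (fun u : ℝ => u ^ 2 / 2 - rate u) x = _ := h2.deriv
      rw [h3]
      have h4 := Real.log_le_sub_one_of_pos (show 0 < 1 + x by linarith)
      norm_num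
      linarith
  have h2 := h1 (Set.mem_Ici.2 le_rfl) (Set.mem_Ici.2 hu) hu
  simp only [rate_zero] at h2
  linarith

lemma rt2 : StrictMonoOn rate (Set.Ici 0) := by
  apply strictMonoOn_of_deriv_pos (convex_Ici 0) rate_cont.continuousOn
  intro x hx
  rw [interior_Ici] at hx
  have hx' : 0 < x := hx
  rw [(rate_deriv (by linarith)).deriv]
  exact Real.log_pos (by linarith)

lemma rt3 : StrictMonoOn hh (Set.Icc 0 1) := by
  apply strictMonoOn_of_deriv_pos (convex_Icc 0 1) hh_cont.continuousOn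
  intro x hx
  rw [interior_Icc] at hx
  rw [(hh_deriv hx.2).deriv, neg_pos]
  exact Real.log_neg (by linarith [hx.2]) (by linarith [hx.1])

lemma rt4 {c u : ℝ} (hc : 0 ≤ c) (hc1 : c ≤ 1) (hu : 0 ≤ u) : c ^ 2 * rate u ≤ rate (c * u) := by
  rcases hc.eq_or_lt with rfl | hc0
  · rw [zero_mul, rate_zero]
    norm_num
  rcases hu.eq_or_lt with rfl | hu0
  · rw [mul_zero, rate_zero, mul_zero]
  have h1 : AntitoneOn (fun u : ℝ => rate u / u ^ 2) (Set.Ioi 0) := by
    apply antitoneOn_of_deriv_nonpos (convex_Ioi 0)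
    · intro x hx
      have hx' : 0 < x := hx
      exact (rate_cont.continuousAt.div (continuous_pow 2).continuousAt
        (by positivity)).continuousWithinAt
    · intro x hx
      rw [interior_Ioi] at hx
      have hx' : 0 < x := hx
      exact ((rate_deriv (by linarith)).div (hasDerivAt_pow 2 x)
        (by positivity)).differentiableAt.differentiableWithinAt
    · intro x hx
      rw [interior_Ioi] at hx
      have hx' : 0 < x := hx
      have h2 := (rate_deriv (u := x) (by linarith)).div (hasDerivAt_pow 2 x)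
        (by positivity)
      have h3 : deriv (fun u : ℝ => rate u / u ^ 2) x = _ := h2.deriv
      rw [h3]
      apply div_nonpos_of_nonpos_of_nonneg _ (by positivity)
      have h4 := rt10 hx'.le
      norm_num
      nlinarith [mul_nonneg hx'.le (sub_nonneg.2 h4)]
  have h2 := h1 (show c * u ∈ Set.Ioi (0:ℝ) from mul_pos hc0 hu0) (show u ∈ Set.Ioi (0:ℝ) from hu0)
    (mul_le_of_le_one_left hu hc1)
  simp only at h2
  rw [div_le_div_iff₀ (by positivity) (by positivity)] at h2
  have h3 : u ^ 2 * (c ^ 2 * rate u) ≤ u ^ 2 * rate (c * u) := by nlinarith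
  exact le_of_mul_le_mul_left h3 (by positivity)

lemma rt5a {v : ℝ} (hv : 0 ≤ v) (hv1 : v ≤ 1) : v ^ 2 / 2 ≤ hh v := by
  have h1 : MonotoneOn (fun v : ℝ => hh v - v ^ 2 / 2) (Set.Icc 0 1) := by
    apply monotoneOn_of_deriv_nonneg (convex_Icc 0 1)
    · exact (hh_cont.sub ((continuous_pow 2).div_const 2)).continuousOn
    · intro x hx
      rw [interior_Icc] at hx
      exact ((hh_deriv hx.2).sub
        ((hasDerivAt_pow 2 x).div_const 2)).differentiableAt.differentiableWithinAt
    · intro x hx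
      rw [interior_Icc] at hx
      have h2 := ((hh_deriv hx.2).sub ((hasDerivAt_pow 2 x).div_const 2))
      have h3 : deriv (fun v : ℝ => hh v - v ^ 2 / 2) x = _ := h2.deriv
      rw [h3]
      have h4 := Real.log_le_sub_one_of_pos (show 0 < 1 - x by linarith [hx.2])
      norm_num
      linarith
  have h2 := h1 (Set.left_mem_Icc.2 zero_le_one) (Set.mem_Icc.2 ⟨hv, hv1⟩) hv
  simp only [hh_zero] at h2
  linarith

lemma rt5b {v : ℝ} (hv1 : v ≤ 1) : hh v ≤ v ^ 2 := by
  unfold hh rate
  rcases hv1.eq_or_lt with rfl | h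
  · simp
  · have h4 := Real.log_le_sub_one_of_pos (show 0 < 1 + -v by linarith)
    nlinarith

lemma rt6 {η : ℝ} (hη : 0 < η) : ∃ c : ℝ, 0 < c ∧ c < 1 ∧ ∀ b v : ℝ, c ≤ b → b ≤ 1 → 0 ≤ v →
    v ≤ 1 → (1 - η) * hh v ≤ hh (b * v) := by
  have huc : UniformContinuousOn hh (Set.Icc 0 1) :=
    isCompact_Icc.uniformContinuousOn_of_continuous hh_cont.continuousOn
  rw [Metric.uniformContinuousOn_iff] at huc
  obtain ⟨δ, hδ, hδ2⟩ := huc (η / 8) (by positivity)
  obtain ⟨m, hm⟩ : ∃ m : ℝ, m = min (min (δ / 2) (η / 4)) (1 / 2) := ⟨_, rfl⟩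
  have hm0 : 0 < m := by rw [hm]; positivity
  have hm1 : m ≤ 1 / 2 := by rw [hm]; exact min_le_right _ _
  have hm2 : m ≤ δ / 2 := by rw [hm]; exact (min_le_left _ _).trans (min_le_left _ _)
  have hm3 : m ≤ η / 4 := by rw [hm]; exact (min_le_left _ _).trans (min_le_right _ _)
  refine ⟨1 - m, by linarith, by linarith, ?_⟩
  intro b v hb hb1 hv hv1
  have hb0 : 0 ≤ b := by linarith
  have hbv0 : 0 ≤ b * v := mul_nonneg hb0 hv
  have hbv : b * v ≤ v := mul_le_of_le_one_left hv hb1
  have hlow := rt5a hv hv1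
  suffices h : hh v - hh (b * v) ≤ η * hh v by linarith
  rcases le_total v (1 / 2) with h2 | h2
  · have h3 := (convex_Icc (0:ℝ) v).image_sub_le_mul_sub_of_deriv_le hh_cont.continuousOn
      (by
        intro x hx
        rw [interior_Icc] at hx
        exact (hh_deriv (by linarith [hx.2])).differentiableAt.differentiableWithinAt)
      (C := 2 * v) (by
        intro x hx
        rw [interior_Icc] at hx
        rw [(hh_deriv (by linarith [hx.2])).deriv]
        have h4 : 0 < 1 - x := by linarith [hx.2]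
        have h5 := Real.one_sub_inv_le_log_of_pos h4
        have h6 : (1 - x)⁻¹ - 1 ≤ 2 * x := by
          rw [sub_le_iff_le_add, inv_le_iff_one_le_mul₀ h4]
          nlinarith [hx.1, hx.2]
        linarith [hx.2]) (b * v) (Set.mem_Icc.2 ⟨hbv0, hbv⟩) v (Set.mem_Icc.2 ⟨hv, le_rfl⟩) hbv
    calc hh v - hh (b * v) ≤ 2 * v * (v - b * v) := h3
      _ = (4 * (1 - b)) * (v ^ 2 / 2) := by ring
      _ ≤ η * (v ^ 2 / 2) := mul_le_mul_of_nonneg_right (by linarith) (by positivity)
      _ ≤ η * hh v := mul_le_mul_of_nonneg_left hlow hη.le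
  · have h3 := hδ2 v (Set.mem_Icc.2 ⟨hv, hv1⟩) (b * v) (Set.mem_Icc.2 ⟨hbv0, hbv.trans hv1⟩) (by
      rw [Real.dist_eq, abs_of_nonneg (by linarith)]
      nlinarith)
    rw [Real.dist_eq] at h3
    have h4 := (le_abs_self _).trans h3.le
    have h5 : 1 / 8 ≤ hh v := by nlinarith
    nlinarith

theorem rt : S_RT := by
  refine ⟨fun u hu => rt1 hu, fun u u' hu h => rt2 (Set.mem_Ici.2 hu)
    (Set.mem_Ici.2 (hu.trans h.le)) h, fun v v' hv h h1 => rt3 (Set.mem_Icc.2 ⟨hv, h.le.trans h1⟩)
    (Set.mem_Icc.2 ⟨hv.trans h.le, h1⟩) h, fun c u hc hc1 hu => rt4 hc hc1 hu,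
    fun v hv hv1 => ⟨rt5a hv hv1, rt5b hv1⟩, fun η hη => rt6 hη, ?_, ?_, fun u hu => rt9 hu,
    fun u hu => rt10 hu, ?_⟩
  · intro T hT
    have h1 : T ≤ rate (T + 2) := by
      refine le_trans ?_ (rt9 (by linarith))
      rw [le_div_iff₀ (by linarith)]
      nlinarith
    have h2 := intermediate_value_Icc (show (0:ℝ) ≤ T + 2 by linarith) rate_cont.continuousOn
    obtain ⟨u, hu, he⟩ := h2 (show T ∈ Set.Icc (rate 0) (rate (T + 2)) by
      rw [rate_zero]; exact ⟨hT, h1⟩)
    exact ⟨u, hu.1, he⟩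
  · intro T hT hT1
    have h2 := intermediate_value_Icc (show (0:ℝ) ≤ 1 by norm_num) hh_cont.continuousOn
    obtain ⟨v, hv, he⟩ := h2 (show T ∈ Set.Icc (hh 0) (hh 1) by
      rw [hh_zero]
      unfold hh
      rw [rate_neg_one]
      exact ⟨hT, hT1⟩)
    exact ⟨v, hv.1, hv.2, he⟩
  · intro y
    have e : rate (Real.exp y - 1) = y * Real.exp y - Real.exp y + 1 := by
      unfold rate
      rw [show (1:ℝ) + (Real.exp y - 1) = Real.exp y by ring, Real.log_exp]
      ring
    refine ⟨e, ?_⟩
    rw [← e]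
    have hpos := Real.exp_pos y
    rcases le_total 0 y with hy | hy
    · have h1 : 1 ≤ Real.exp y := Real.one_le_exp hy
      have h2 := rt9 (u := Real.exp y - 1) (by linarith)
      rw [div_le_iff₀ (by linarith)] at h2
      rw [max_eq_right h1]
      have h3 : 0 ≤ rate (Real.exp y - 1) := by
        refine le_trans ?_ (rt9 (u := Real.exp y - 1) (by linarith))
        exact div_nonneg (sq_nonneg _) (by linarith)
      nlinarith
    · have h1 : Real.exp y ≤ 1 := Real.exp_le_one_iff.2 hy
      rw [max_eq_left h1]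
      have h2 := rt5a (v := 1 - Real.exp y) (by linarith) (by linarith)
      unfold hh at h2
      rw [neg_sub] at h2
      nlinarith

end Pool.Agent.Q68.ML
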